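import Pool.Agent.Y58.HT.Stm3

/-!
Statements of the blocks of the second part of project HT (MP_405426_al): groups residually
embedded in groups `PGL(2,K)`, and subgroups of `GL(2,R)`, `PGL(2,R)` over commutative rings.
-/

universe u

namespace Pool.Agent.Y58.HT

open Matrix H361P
open scoped MatrixGroups

/-- Every finitely generated subgroup is nilpotent. -/
def LocNilp (G : Type*) [Group G] : Prop :=
  ∀ S : Set G, S.Finite → Group.IsNilpotent (Subgroup.closure S)

/-- block LN: a `4`-transitive infinite group has no nontrivial locally nilpotent normal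
subgroup -/
def S_LN : Prop := ∀ (G : Type u) [Group G] [Infinite G], HasFaithfulKTransitive G 4 →
  ∀ N : Subgroup G, N.Normal → LocNilp N → N = ⊥

/-- block RK: finitely many matrices congruent to `1` modulo the nilradical generate a nilpotent
group -/
def S_RK : Prop := ∀ (R : Type u) [CommRing R] (T : Set (GL (Fin 2) R)), T.Finite →
  (∀ t ∈ T, ∀ i j, IsNilpotent ((t : Matrix (Fin 2) (Fin 2) R) i j -
    (1 : Matrix (Fin 2) (Fin 2) R) i j)) → Group.IsNilpotent (Subgroup.closure T)

/-- block KER: a group embedded in `PGL(2,R)` maps to the groups `PGL(2, κ(p))` with common kernel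
whose derived subgroup is locally nilpotent -/
def S_KER : Prop := ∀ (R : Type u) [CommRing R] (G : Type u) [Group G] (j : G →* PGL(2, R)),
  Function.Injective j → ∃ (ι : Type u) (K : ι → Type u) (_ : ∀ i, Field (K i))
    (f : ∀ i, G →* PGL(2, K i)), LocNilp (derivedSeries ↥(⨅ i, (f i).ker) 1)

/-- block UP: ultraproducts of the fields -/
def S_UP : Prop := ∀ (G : Type u) [Group G] (ι : Type u) (K : ι → Type u) [∀ i, Field (K i)]
  (f : ∀ i, G →* PGL(2, K i)) (U : Ultrafilter ι),
  ∃ (L : Type u) (_ : Field L) (φ : G →* PGL(2, L)), ∀ g, φ g = 1 ↔ ∀ᶠ i in U, f i g = 1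

/-- block FT: a finite group has finite transitivity degree -/
def S_FT : Prop := ∀ (G : Type u) [Group G] [Finite G], td G ≠ ⊤

end Pool.Agent.Y58.HT
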