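import Pool.Agent.H361R3.PGL.Final

/-!
Statements of the blocks of project HT (high transitivity of countable subgroups of `PGL(2,K)`).
-/

universe u v

namespace Pool.Agent.Y58.HT

open Matrix H361P
open scoped MatrixGroups LinearAlgebra.Projectivization

/-- Every finitely generated subgroup is finite. -/
def LocFinite (G : Type*) [Group G] : Prop :=
  ∀ S : Set G, S.Finite → Finite (Subgroup.closure S)

/-- Some subgroup of finite index is solvable. -/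
def VirtSolvable (G : Type*) [Group G] : Prop :=
  ∃ N : Subgroup G, N.FiniteIndex ∧ IsSolvable N

/-- No point of the projective line is fixed by `G`. -/
def NoFix {K : Type*} [Field K] (G : Subgroup (PGL(2, K))) : Prop :=
  ∀ p : ℙ K (Fin 2 → K), ∃ m : GL (Fin 2) K, ProjGenLinGroup.mk m ∈ G ∧ m • p ≠ p

/-- No pair of points of the projective line is invariant under `G`. -/
def NoPair {K : Type*} [Field K] (G : Subgroup (PGL(2, K))) : Prop :=
  ∀ p q : ℙ K (Fin 2 → K), p ≠ q → ∃ m : GL (Fin 2) K, ProjGenLinGroup.mk m ∈ G ∧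
    ¬ ((m • p = p ∨ m • p = q) ∧ (m • q = p ∨ m • q = q))

/-- Diagonalizable elements whose quotient of eigenvalues is not a root of unity. -/
def Lox {K : Type*} [Field K] (g : PGL(2, K)) : Prop :=
  ∃ (h : GL (Fin 2) K) (l : Kˣ), (∀ n : ℕ, 0 < n → (l : K) ^ n ≠ 1) ∧
    g = ProjGenLinGroup.mk (h * dm l true * h⁻¹)

/-- block EQ -/
def S_EQ : Prop := ∀ {F : Type u} [Field F] (v : AbsoluteValue F ℝ) (m : GL (Fin 2) F) (r : ℝ),
  0 < r → r ≤ 1 → ∀ t0 : F, t0 ≠ 0 → v t0 < r →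
  ¬ pd v (m • pt 0) (pt 0) < r → ¬ pd v (m⁻¹ • pt 0) (pt 0) < r →
  ¬ pd v (m • pt t0) (pt 0) < r →
  ∀ z w : ℙ F (Fin 2 → F), pd v z (pt 0) < r / 2 → pd v w (pt 0) < r / 2 →
    pd v (m • z) (m • w) ≤ (4 * (1 / r ^ 2 + 3 / (r * v t0))) * pd v z w

/-- block CON -/
def S_CON : Prop := ∀ {F : Type u} [Field F] (v : AbsoluteValue F ℝ) (l : Fˣ), v (l : F) < 1 →
  ∀ (g : Bool → GL (Fin 2) F) (U : Bool → Set (ℙ F (Fin 2 → F))),
  (∀ b, @IsOpen _ (metricOf v).toUniformSpace.toTopologicalSpace (U b)) →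
  (∀ b, g b • pb b ∈ U b) → ∀ ε : ℝ, 0 < ε → ∃ n : ℕ,
    (∀ b (x : ℙ F (Fin 2 → F)), x ∉ U (!b) → (g b * dm l b ^ n * (g (!b))⁻¹) • x ∈ U b) ∧
    (∀ b (x y : ℙ F (Fin 2 → F)), x ∉ U (!b) → y ∉ U (!b) →
      pd v ((g b * dm l b ^ n * (g (!b))⁻¹) • x) ((g b * dm l b ^ n * (g (!b))⁻¹) • y) ≤
        ε * pd v x y)

/-- block FX3 -/
def S_FX3 : Prop := ∀ {F : Type u} [Field F] (m : GL (Fin 2) F) (p q o : ℙ F (Fin 2 → F)),
  p ≠ q → p ≠ o → q ≠ o → m • p = p → m • q = q → m • o = o → ProjGenLinGroup.mk m = 1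

/-- block NE: non-elementary groups are highly transitive -/
def S_NE : Prop := ∀ {K : Type u} [Field K] (v : AbsoluteValue K ℝ) (G : Subgroup (PGL(2, K)))
  [Countable G] [Infinite G] (h : GL (Fin 2) K) (l : Kˣ), v (l : K) ≠ 1 →
  ProjGenLinGroup.mk (h * dm l true * h⁻¹) ∈ G → NoFix G → NoPair G →
  IsHighlyTransitiveGroup G

/-- block AVT -/
def S_AVT : Prop := ∀ {k : Type v} {K : Type u} [Field k] [Field K] [Algebra k K] (t : K),
  Transcendental k t → ∃ w : AbsoluteValue K ℝ, w t < 1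

/-- block AVE -/
def S_AVE : Prop := ∀ {K : Type u} {E : Type} [Field K] [CharZero K] [Countable K] [Field E]
  [CharZero E] [IsAlgClosed E] [Uncountable E] (l : K), IsAlgebraic ℚ l → ∀ l' : E,
  Polynomial.aeval l' (minpoly ℚ l) = 0 → ∃ ψ : K →+* E, ψ l = l'

/-- block AVK -/
def S_AVK : Prop := ∀ {K : Type u} [Field K] [CharZero K] (l : K), IsAlgebraic ℚ l → l ≠ 0 →
  (∀ n : ℕ, 0 < n → l ^ n ≠ 1) →
  ∃ (E : Type) (_ : Field E) (_ : CharZero E) (_ : IsAlgClosed E) (_ : Uncountable E)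
    (w : AbsoluteValue E ℝ) (l' : E), Polynomial.aeval l' (minpoly ℚ l) = 0 ∧ w l' ≠ 1

/-- block AV -/
def S_AV : Prop := ∀ {K : Type u} [Field K] [Countable K] (l : K), l ≠ 0 →
  (∀ n : ℕ, 0 < n → l ^ n ≠ 1) → ∃ w : AbsoluteValue K ℝ, w l ≠ 1

/-- block KOL -/
def S_KOL : Prop := ∀ {K : Type u} [Field K] (N : Subgroup (GL (Fin 2) K)),
  (∀ n ∈ N, n.val.trace = 2 ∧ n.val.det = 1) → N ≠ ⊥ →
  ∃ p : ℙ K (Fin 2 → K), ∀ m : GL (Fin 2) K, (∀ n ∈ N, m * n * m⁻¹ ∈ N) → m • p = p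

/-- block RED -/
def S_RED : Prop := ∀ (R : Type u) [CommRing R] [IsDomain R] [Algebra.FiniteType ℤ R] (a : R),
  a ≠ 0 → ∃ (k : Type u) (_ : Field k) (_ : Finite k) (f : R →+* k), f a ≠ 0

/-- block EIG -/
def S_EIG : Prop := ∀ {K : Type u} [Field K] [IsAlgClosed K] (R : Subring K) {k : Type u} [Field k]
  (f : R →+* k) (p : ℕ) [Fact p.Prime] [CharP k p] (t : R) (ζ : K) (n : ℕ), 0 < n →
  ζ ^ n = 1 → ζ + ζ⁻¹ = (t : K) → f t = 2 → ∃ a : ℕ, ζ ^ p ^ a = 1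

/-- block NL -/
def S_NL : Prop := ∀ {K : Type u} [Field K] [IsAlgClosed K] (M : GL (Fin 2) K),
  M.val.det = 1 → ¬ Lox (ProjGenLinGroup.mk M) →
  ∃ (ζ : K) (n : ℕ), 0 < n ∧ ζ ^ n = 1 ∧ ζ + ζ⁻¹ = M.val.trace

/-- block FIN -/
def S_FIN : Prop := ∀ {K : Type u} [Field K] [IsAlgClosed K] (S : Set (PGL(2, K))), S.Finite →
  NoFix (Subgroup.closure S) → (∀ g ∈ Subgroup.closure S, ¬ Lox g) →
  Finite (Subgroup.closure S)

/-- block LF -/
def S_LF : Prop := ∀ {K : Type u} [Field K] [IsAlgClosed K] (G : Subgroup (PGL(2, K))),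
  NoFix G → (∀ g ∈ G, ¬ Lox g) → LocFinite G

/-- block NF4 -/
def S_NF4 : Prop := ∀ {K : Type u} [Field K] (G : Subgroup (PGL(2, K))) [Infinite G],
  LocFinite G → ¬ HasFaithfulKTransitive G 4

/-- block VS4 -/
def S_VS4 : Prop := ∀ (G : Type u) [Group G] [Infinite G], VirtSolvable G →
  ¬ HasFaithfulKTransitive G 4

/-- block ELEM -/
def S_ELEM : Prop := ∀ {K : Type u} [Field K] (G : Subgroup (PGL(2, K))), ¬ VirtSolvable G →
  NoFix G ∧ NoPair G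

/-- block BC -/
def S_BC : Prop := ∀ (F : Type u) [Field F],
  ∃ ψ : PGL(2, F) →* PGL(2, AlgebraicClosure F), Function.Injective ψ

/-- block TR -/
def S_TR : Prop := ∀ {G H : Type u} [Group G] [Group H], (G ≃* H) →
  (LocFinite G → LocFinite H) ∧ (VirtSolvable G → VirtSolvable H) ∧
    (IsHighlyTransitiveGroup G → IsHighlyTransitiveGroup H)

/-- block PSL -/
def S_PSL : Prop := ∀ {F : Type u} [Field F] [Infinite F] (G : Subgroup (PGL(2, F))),
  (∀ m : SL(2, F), ProjGenLinGroup.mk (m : GL (Fin 2) F) ∈ G) →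
  NoFix G ∧ NoPair G ∧ HasFaithfulKTransitive G 2 ∧
    ∀ x : Fˣ, ProjGenLinGroup.mk (dm (x ^ 2) true) ∈ G

end Pool.Agent.Y58.HT
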