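import Pool.Agent.Y58.HT.Stm

/-!
Absolute values for elements which are not roots of unity.
-/

universe u

namespace Pool.Agent.Y58.HT

open Matrix H361P

theorem t_av (hT : ∀ {k : Type} {K : Type u} [Field k] [Field K] [Algebra k K] (t : K),
      Transcendental k t → ∃ w : AbsoluteValue K ℝ, w t < 1)
    (hE : S_AVE.{u}) (hK : S_AVK.{u}) : S_AV.{u} := by
  intro K _ _ l hl0 hl
  obtain ⟨p, hp⟩ := CharP.exists K
  rcases CharP.char_is_prime_or_zero K p with hpp | h0
  · haveI : Fact p.Prime := ⟨hpp⟩
    letI : Algebra (ZMod p) K := ZMod.algebra K p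
    by_cases halg : IsAlgebraic (ZMod p) l
    · exfalso
      have hfd : FiniteDimensional (ZMod p) (IntermediateField.adjoin (ZMod p) {l}) :=
        IntermediateField.adjoin.finiteDimensional halg.isIntegral
      have hfin : Finite (IntermediateField.adjoin (ZMod p) {l}) :=
        Module.finite_of_finite (ZMod p)
      let x : IntermediateField.adjoin (ZMod p) {l} :=
        ⟨l, IntermediateField.mem_adjoin_simple_self (ZMod p) l⟩
      have hx : x ≠ 0 := fun h => hl0 (congrArg Subtype.val h)
      have h1 : IsOfFinOrder (Units.mk0 x hx) := isOfFinOrder_of_finite _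
      obtain ⟨n, hn, hn1⟩ := isOfFinOrder_iff_pow_eq_one.1 h1
      apply hl n hn
      have h2 := congrArg (fun z : (IntermediateField.adjoin (ZMod p) {l})ˣ =>
        ((z : IntermediateField.adjoin (ZMod p) {l}) : K)) hn1
      simpa [x] using h2
    · obtain ⟨w, hw⟩ := hT (k := ZMod p) l halg
      exact ⟨w, hw.ne⟩
  · subst h0
    haveI : CharZero K := CharP.charP_to_charZero K
    by_cases halg : IsAlgebraic ℚ l
    · obtain ⟨E, _, _, _, _, w, l', hroot, hne⟩ := hK l halg hl0 hl
      obtain ⟨ψ, hψ⟩ := hE l halg l' hroot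
      refine ⟨w.comp (f := ψ) ψ.injective, ?_⟩
      show w (ψ l) ≠ 1
      rw [hψ]; exact hne
    · obtain ⟨w, hw⟩ := hT (k := ℚ) l halg
      exact ⟨w, hw.ne⟩

end Pool.Agent.Y58.HT
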