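import Pool.Agent.Y58.HT.Stm2

/-!
Assembly of the classification.
-/

universe u

namespace Pool.Agent.Y58.HT

open Matrix H361P
open scoped MatrixGroups

theorem td_small (G : Type u) [Group G] [Infinite G] (h : ¬ HasFaithfulKTransitive G 4) :
    ¬ IsHighlyTransitiveGroup G ∧ td G ≤ 3 := by
  have h3 : td G ≤ 3 := by
    refine iSup₂_le ?_
    rintro k ⟨_, hk⟩
    by_contra hlt
    apply h
    obtain ⟨Ω, act, hfaith, htr⟩ := hk
    have := infinite_of_faithful G Ω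
    have hk3 : ¬ k ≤ 3 := fun h => hlt (by exact_mod_cast h)
    exact ⟨Ω, act, hfaith, ktrans_mono G Ω (by omega) htr⟩
  refine ⟨fun hht => ?_, h3⟩
  have h1 := td_eq_top _ hht
  rw [h1] at h3
  exact absurd h3 (by decide)

theorem td_ge (G : Type u) [Group G] {k : ℕ} (hk : 1 ≤ k) (h : HasFaithfulKTransitive G k) :
    (k : ℕ∞) ≤ td G :=
  le_iSup₂_of_le (f := fun (k : ℕ) (_ : 1 ≤ k ∧ HasFaithfulKTransitive G k) => (k : ℕ∞)) k
    ⟨hk, h⟩ le_rfl

instance countable_closure (F : Type u) [Field F] [Countable F] :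
    Countable (AlgebraicClosure F) := by
  have h := Algebra.IsAlgebraic.cardinalMk_le_max F (AlgebraicClosure F)
  rw [← Cardinal.mk_le_aleph0_iff]
  exact h.trans (max_le Cardinal.mk_le_aleph0 le_rfl)

theorem ht_of_not (hAV : S_AV.{u}) (hNE : S_NE.{u}) (hLF : S_LF.{u}) (hEL : S_ELEM.{u})
    (hBC : S_BC.{u}) (hTR : S_TR.{u}) (F : Type u) [Field F] [Countable F]
    (G : Subgroup (PGL(2, F))) [Infinite G] (h1 : ¬ LocFinite G) (h2 : ¬ VirtSolvable G) :
    IsHighlyTransitiveGroup G := by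
  obtain ⟨ψ, hψ⟩ := hBC F
  let G' : Subgroup (PGL(2, AlgebraicClosure F)) := G.map ψ
  let e : G ≃* G' := G.equivMapOfInjective ψ hψ
  have h1' : ¬ LocFinite G' := fun h => h1 ((hTR e.symm).1 h)
  have h2' : ¬ VirtSolvable G' := fun h => h2 ((hTR e.symm).2.1 h)
  obtain ⟨N1, N2⟩ := hEL G' h2'
  have hex : ∃ g ∈ G', Lox g := by
    by_contra hcon
    push Not at hcon
    exact h1' (hLF G' N1 hcon)
  obtain ⟨g, hg, h, l, hl, rfl⟩ := hex
  obtain ⟨w, hw⟩ := hAV (l : AlgebraicClosure F) l.ne_zero hl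
  haveI : Infinite G' := Infinite.of_injective e e.injective
  haveI : Countable G' := inferInstance
  have h3 : IsHighlyTransitiveGroup G' := hNE w G' h l hw hg N1 N2
  exact (hTR e.symm).2.2 h3

/-- The dichotomy. -/
theorem dichotomy (hAV : S_AV.{u}) (hNE : S_NE.{u}) (hLF : S_LF.{u}) (hEL : S_ELEM.{u})
    (hBC : S_BC.{u}) (hTR : S_TR.{u}) (hD : S_DESC.{u}) (hN4 : S_NF4.{u}) (hV4 : S_VS4.{u})
    (K : Type u) [Field K] (G : Subgroup (PGL(2, K))) [Countable G] [Infinite G] :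
    (¬ LocFinite G ∧ ¬ VirtSolvable G → IsHighlyTransitiveGroup G ∧ td G = ⊤) ∧
    (LocFinite G ∨ VirtSolvable G → ¬ IsHighlyTransitiveGroup G ∧ td G ≤ 3) := by
  refine ⟨?_, ?_⟩
  · rintro ⟨h1, h2⟩
    obtain ⟨K₀, _, _, G₀, ⟨e⟩⟩ := hD G
    haveI : Infinite G₀ := Infinite.of_injective e.symm e.symm.injective
    have h : IsHighlyTransitiveGroup G :=
      (hTR e).2.2 (ht_of_not hAV hNE hLF hEL hBC hTR K₀ G₀ (fun h => h1 ((hTR e).1 h))
        (fun h => h2 ((hTR e).2.1 h)))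
    exact ⟨h, td_eq_top _ h⟩
  · rintro (h | h)
    · exact td_small G (hN4 G h)
    · exact td_small G (hV4 G h)

/-- Groups between `PSL(2,K)` and `PGL(2,K)`. -/
theorem between (hNE : S_NE.{u}) (hP : S_PSL.{u})
    (K : Type u) [Field K] [Infinite K] (G : Subgroup (PGL(2, K))) [Countable G] [Infinite G]
    (hG : ∀ m : SL(2, K), ProjGenLinGroup.mk (m : GL (Fin 2) K) ∈ G) :
    2 ≤ td G ∧ (¬ AlgebraicOverFiniteField K → IsHighlyTransitiveGroup G) := by
  obtain ⟨N1, N2, h2, hx⟩ := hP G hG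
  refine ⟨by exact_mod_cast td_ge G (by norm_num) h2, fun hK => ?_⟩
  obtain ⟨v, x, hx0, hvx⟩ := exists_abs hK
  have h1 := hx (Units.mk0 x hx0)
  refine hNE v G 1 ((Units.mk0 x hx0) ^ 2) ?_ (by
    rw [one_mul, inv_one, mul_one]; exact h1) N1 N2
  rw [Units.val_pow_eq_pow_val, Units.val_mk0, map_pow]
  have h0 := v.nonneg x
  exact (pow_lt_one₀ h0 hvx (by norm_num)).ne

end Pool.Agent.Y58.HT
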