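import Pool.Agent.Y58.HT.Stm4
import Pool.Agent.Y58.HT.Asm
import Pool.Agent.Y659.HT.VS4

/-!
Assembly of the second part of project HT (MP_405426_al).
-/

universe u

open Matrix H361P Filter
open scoped MatrixGroups

namespace Pool.Agent.Y58.HT

/-- A `4`-transitive infinite group with a family of normal subgroups with trivial intersection:
some ultrafilter on the index set separates the elements. -/
theorem exists_ultra (hnorm : S_NORM.{u}) (G : Type u) [Group G] [Infinite G]
    (h4 : HasFaithfulKTransitive G 4) {ι : Type u} (N : ι → Subgroup G) (hN : ∀ i, (N i).Normal)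
    (hbot : ⨅ i, N i = ⊥) : ∃ U : Ultrafilter ι, ∀ g : G, g ≠ 1 → ∀ᶠ i in U, g ∉ N i := by
  classical
  let D : {g : G // g ≠ 1} → Set ι := fun g => {i | g.1 ∉ N i}
  have hne : ∀ g, (D g).Nonempty := by
    intro g
    by_contra hcon
    rw [Set.not_nonempty_iff_eq_empty] at hcon
    have h1 : g.1 ∈ ⨅ i, N i := by
      rw [Subgroup.mem_iInf]
      intro i
      by_contra hi
      have : i ∈ D g := hi
      rw [hcon] at this
      exact this
    rw [hbot, Subgroup.mem_bot] at h1
    exact g.2 h1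
  have hcl : ∀ g : G, g ≠ 1 → Subgroup.normalClosure {g} ≠ ⊥ := by
    intro g hg h
    apply hg
    have h1 : g ∈ Subgroup.normalClosure {g} := Subgroup.subset_normalClosure rfl
    rw [h, Subgroup.mem_bot] at h1
    exact h1
  have hdir : Directed (· ≥ ·) fun g => 𝓟 (D g) := by
    intro g h
    have h1 : Subgroup.normalClosure {g.1} ⊓ Subgroup.normalClosure {h.1} ≠ ⊥ := by
      intro h2
      rcases hnorm G h4 _ _ inferInstance inferInstance h2 with h3 | h3
      · exact hcl _ g.2 h3
      · exact hcl _ h.2 h3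
    obtain ⟨k, hk⟩ := Subgroup.ne_bot_iff_exists_ne_one.1 h1
    have hk1 : k.1 ≠ 1 := fun h => hk (Subtype.ext h)
    have hsub : ∀ (a : G) (i : ι), k.1 ∈ Subgroup.normalClosure {a} → k.1 ∉ N i → a ∉ N i := by
      intro a i hka hki hai
      apply hki
      haveI := hN i
      exact Subgroup.normalClosure_le_normal (by simpa using hai) hka
    refine ⟨⟨k.1, hk1⟩, ?_, ?_⟩
    · show 𝓟 (D ⟨k.1, hk1⟩) ≤ 𝓟 (D g)
      rw [principal_mono]
      exact fun i hi => hsub g.1 i k.2.1 hi
    · show 𝓟 (D ⟨k.1, hk1⟩) ≤ 𝓟 (D h)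
      rw [principal_mono]
      exact fun i hi => hsub h.1 i k.2.2 hi
  haveI : Nonempty {g : G // g ≠ 1} := by
    obtain ⟨g, hg⟩ := exists_ne (1 : G)
    exact ⟨⟨g, hg⟩⟩
  haveI : Nonempty ι := (hne (Classical.arbitrary _)).to_type
  haveI hF : (⨅ g, 𝓟 (D g)).NeBot :=
    iInf_neBot_of_directed hdir (fun g => principal_neBot_iff.2 (hne g))
  refine ⟨Ultrafilter.of (⨅ g, 𝓟 (D g)), fun g hg => ?_⟩
  exact (Ultrafilter.of_le _) (mem_iInf_of_mem ⟨g, hg⟩ (mem_principal_self _))

lemma locNilp_equiv {G H : Type*} [Group G] [Group H] (e : G ≃* H) (h : LocNilp G) :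
    LocNilp H := by
  intro S hS
  have h1 := h (e.symm '' S) (hS.image _)
  have h2 : (Subgroup.closure (e.symm '' S)).map e.toMonoidHom = Subgroup.closure S := by
    rw [MonoidHom.map_closure, ← Set.image_comp]
    congr 1
    ext x
    simp
  rw [← h2]
  exact (Group.isNilpotent_congr
    ((Subgroup.closure (e.symm '' S)).equivMapOfInjective e.toMonoidHom e.injective)).1 h1

lemma locNilp_of_comm {G : Type*} [Group G] (A : Subgroup G)
    (h : ∀ a ∈ A, ∀ b ∈ A, a * b = b * a) : LocNilp A := by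
  intro S _
  letI : CommGroup A :=
    { (inferInstance : Group A) with mul_comm := fun a b => Subtype.ext (h _ a.2 _ b.2) }
  exact (inferInstance : Group.IsNilpotent (Subgroup.closure S))

/-- A normal subgroup with a locally nilpotent term in its derived series is trivial. -/
theorem eq_bot_of_derived (hln : S_LN.{u}) (G : Type u) [Group G] [Infinite G]
    (h4 : HasFaithfulKTransitive G 4) (N : Subgroup G) (hN : N.Normal) (n : ℕ)
    (hn : LocNilp (derivedSeries N n)) : N = ⊥ := by
  have h1 : LocNilp ((derivedSeries N n).map N.subtype) :=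
    locNilp_equiv ((derivedSeries N n).equivMapOfInjective N.subtype N.subtype_injective) hn
  have h2 := hln G h4 ((derivedSeries N n).map N.subtype) inferInstance h1
  rw [Subgroup.map_eq_bot_iff_of_injective _ N.subtype_injective] at h2
  haveI : Group.IsSolvable N := (Group.isSolvable_def N).2 ⟨n, h2⟩
  by_contra hne
  obtain ⟨A, hA, hcomm, a, ha, ha1⟩ := Pool.Agent.Y659.HT.exists_abelian N hne
  have h3 := hln G h4 A hA (locNilp_of_comm A hcomm)
  rw [h3, Subgroup.mem_bot] at ha
  exact ha1 ha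

lemma hasK_equiv {G H : Type u} [Group G] [Group H] (e : G ≃* H) {k : ℕ}
    (h : HasFaithfulKTransitive G k) : HasFaithfulKTransitive H k := by
  obtain ⟨Ω, act, hf, h1, h2⟩ := h
  let actH : MulAction H Ω := MulAction.compHom Ω e.symm.toMonoidHom
  have hact : ∀ (x : H) (a : Ω), x • a = e.symm x • a := fun _ _ => rfl
  refine ⟨Ω, actH, ⟨?_⟩, h1, fun a b ha hb => ?_⟩
  · intro x y hxy
    apply e.symm.injective
    exact hf.eq_of_smul_eq_smul fun a => hxy a
  · obtain ⟨g, hg⟩ := h2 a b ha hb
    refine ⟨e g, fun i => ?_⟩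
    rw [hact, e.symm_apply_apply]
    exact hg i

lemma hasFour_of_td (G : Type u) [Group G] [Infinite G] (h : 4 ≤ td G) :
    HasFaithfulKTransitive G 4 := by
  have h3 : (3 : ℕ∞) < td G := lt_of_lt_of_le (by decide) h
  unfold td at h3
  simp only [lt_iSup_iff] at h3
  obtain ⟨k, ⟨_, Ω, act, hfaith, htr⟩, hk⟩ := h3
  have hk4 : 4 ≤ k := by
    have : (3 : ℕ) < k := by exact_mod_cast hk
    omega
  haveI := infinite_of_faithful G Ω
  exact ⟨Ω, act, hfaith, ktrans_mono G Ω hk4 htr⟩

/-- the dichotomy for subgroups of `PGL(2,K)` used as a hypothesis -/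
def S_DICH : Prop := ∀ (K : Type u) [Field K] (G : Subgroup (PGL(2, K))) [Countable G] [Infinite G],
    (¬ LocFinite G ∧ ¬ VirtSolvable G → IsHighlyTransitiveGroup G ∧ td G = ⊤) ∧
    (LocFinite G ∨ VirtSolvable G → ¬ IsHighlyTransitiveGroup G ∧ td G ≤ 3)

theorem ht_of_embed (hdich : S_DICH.{u}) (htr : S_TR.{u}) (G : Type u) [Group G] [Countable G]
    [Infinite G] (h4 : HasFaithfulKTransitive G 4) {L : Type u} [Field L] (φ : G →* PGL(2, L))
    (hφ : Function.Injective φ) : IsHighlyTransitiveGroup G := by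
  let e : G ≃* φ.range := MonoidHom.ofInjective hφ
  haveI : Countable φ.range := e.toEquiv.countable_iff.1 inferInstance
  haveI : Infinite φ.range := e.toEquiv.infinite_iff.1 inferInstance
  obtain ⟨h1, h2⟩ := hdich L φ.range
  by_cases hb : LocFinite φ.range ∨ VirtSolvable φ.range
  · exfalso
    have h3 := (h2 hb).2
    have h5 := td_ge φ.range (by norm_num) (hasK_equiv e h4)
    exact absurd (h5.trans h3) (by decide)
  · push Not at hb
    exact (htr e.symm).2.2 (h1 hb).1

/-- main theorem for families -/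
theorem main_family (hnorm : S_NORM.{u}) (hln : S_LN.{u}) (hup : S_UP.{u}) (hdich : S_DICH.{u})
    (htr : S_TR.{u}) (G : Type u) [Group G] [Countable G] [Infinite G] (ι : Type u)
    (K : ι → Type u) [∀ i, Field (K i)] (f : ∀ i, G →* PGL(2, K i)) (n : ℕ)
    (hn : LocNilp (derivedSeries ↥(⨅ i, (f i).ker) n)) (h4 : HasFaithfulKTransitive G 4) :
    IsHighlyTransitiveGroup G ∧
      ∃ (L : Type u) (_ : Field L) (φ : G →* PGL(2, L)), Function.Injective φ := by
  have hnor : (⨅ i, (f i).ker).Normal := Subgroup.normal_iInf_normal fun i => inferInstance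
  have hbot := eq_bot_of_derived hln G h4 _ hnor n hn
  obtain ⟨U, hU⟩ := exists_ultra hnorm G h4 (fun i => (f i).ker) (fun i => inferInstance) hbot
  obtain ⟨L, hL, φ, hφ⟩ := hup G ι K f U
  have hinj : Function.Injective φ := by
    rw [injective_iff_map_eq_one]
    intro g hg
    by_contra hg1
    have h1 := (hφ g).1 hg
    have h2 := hU g hg1
    obtain ⟨i, hi1, hi2⟩ := (h1.and h2).exists
    exact hi2 (MonoidHom.mem_ker.2 hi1)
  exact ⟨ht_of_embed hdich htr G h4 φ hinj, L, hL, φ, hinj⟩

/-- subgroups of `PGL(2,R)` -/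
theorem main_pgl (hnorm : S_NORM.{u}) (hln : S_LN.{u}) (hup : S_UP.{u}) (hdich : S_DICH.{u})
    (htr : S_TR.{u}) (hker : S_KER.{u}) (R : Type u) [CommRing R] (G : Type u) [Group G]
    [Countable G] [Infinite G] (j : G →* PGL(2, R)) (hj : Function.Injective j)
    (h4 : HasFaithfulKTransitive G 4) : IsHighlyTransitiveGroup G := by
  obtain ⟨ι, K, hK, f, hf⟩ := hker R G j hj
  exact (main_family hnorm hln hup hdich htr G ι K f 1 hf h4).1

/-- subgroups of `GL(2,R)` -/
theorem main_gl (hnorm : S_NORM.{u}) (hln : S_LN.{u}) (hup : S_UP.{u}) (hdich : S_DICH.{u})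
    (htr : S_TR.{u}) (hker : S_KER.{u}) (R : Type u) [CommRing R] (G : Type u) [Group G]
    [Countable G] [Infinite G] (j : G →* GL (Fin 2) R) (hj : Function.Injective j)
    (h4 : HasFaithfulKTransitive G 4) : IsHighlyTransitiveGroup G := by
  refine main_pgl hnorm hln hup hdich htr hker R G (ProjGenLinGroup.mk.comp j) ?_ h4
  rw [← MonoidHom.ker_eq_bot_iff]
  refine hln G h4 _ inferInstance (locNilp_of_comm _ ?_)
  intro a ha b _
  rw [MonoidHom.mem_ker, MonoidHom.comp_apply, ProjGenLinGroup.mk_eq_one,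
    Subgroup.mem_center_iff] at ha
  apply hj
  rw [map_mul, map_mul]
  exact (ha (j b)).symm

end Pool.Agent.Y58.HT
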