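import Pool.Agent.Y58.HT.Stm

/-!
Non-elementary subgroups of `PGL(2,K)` are highly transitive (block NE).
-/

universe u v

namespace Pool.Agent.Y58.HT

open Matrix H361P Set
open scoped MatrixGroups LinearAlgebra.Projectivization

variable {K : Type u} [Field K] (v : AbsoluteValue K ℝ)

/-- The projective line with the metric given by `v`. -/
def PL (_v : AbsoluteValue K ℝ) : Type u := ℙ K (Fin 2 → K)

noncomputable instance : MetricSpace (PL v) := metricOf v

noncomputable instance : MulAction (GL (Fin 2) K) (PL v) :=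
  inferInstanceAs (MulAction (GL (Fin 2) K) (ℙ K (Fin 2 → K)))

noncomputable instance : MulAction (PGL(2, K)) (PL v) := actPGL

lemma mk_smul' (m : GL (Fin 2) K) (x : PL v) : ProjGenLinGroup.mk m • x = m • x := rfl

lemma cont (m : GL (Fin 2) K) : Continuous (fun x : PL v => m • x) := by
  have : LipschitzWith ⟨LC v m, (LC_pos v m).le⟩ (fun x : PL v => m • x) := by
    apply LipschitzWith.of_dist_le_mul
    intro x y
    exact pd_LC v m x y
  exact this.continuous

variable (G : Subgroup (PGL(2, K)))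

/-- The limit set. -/
def Lim (P : PL v) : Set (PL v) :=
  closure {x | ∃ m : GL (Fin 2) K, ProjGenLinGroup.mk m ∈ G ∧ m • P = x}

lemma orb_mem (P : PL v) {m : GL (Fin 2) K} (hm : ProjGenLinGroup.mk m ∈ G) :
    m • P ∈ Lim v G P := subset_closure ⟨m, hm, rfl⟩

lemma Lim_inv (P : PL v) (g : PGL(2, K)) (hg : g ∈ G) (x : PL v) (hx : x ∈ Lim v G P) :
    g • x ∈ Lim v G P := by
  induction g using ProjGenLinGroup.induction_on with
  | mk m =>
    refine map_mem_closure (cont v m) hx ?_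
    rintro _ ⟨k, hk, rfl⟩
    exact ⟨m * k, by rw [map_mul]; exact G.mul_mem hg hk, mul_smul _ _ _⟩

noncomputable instance (P : PL v) : MulAction G (Lim v G P) where
  smul g x := ⟨(g : PGL(2, K)) • (x : PL v), Lim_inv v G P _ g.2 _ x.2⟩
  one_smul x := Subtype.ext (one_smul _ _)
  mul_smul g h x := Subtype.ext (mul_smul _ _ _)

lemma coe_smul' (P : PL v) (g : G) (x : Lim v G P) :
    ((g • x : Lim v G P) : PL v) = (g : PGL(2, K)) • (x : PL v) := rfl

/-- The two fixed points. -/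
noncomputable def Q (h : GL (Fin 2) K) (b : Bool) : PL v := h • (pb b : ℙ K (Fin 2 → K))

lemma Q_ne (h : GL (Fin 2) K) : Q v h true ≠ Q v h false := by
  intro h1
  have h2 : (pb true : ℙ K (Fin 2 → K)) = pb false := MulAction.injective h h1
  have := wd_of_mk_eq _ _ h2
  simp [wd, eb] at this

variable {v G} {h : GL (Fin 2) K} {l : Kˣ}

lemma mem_pow (hγ : ProjGenLinGroup.mk (h * dm l true * h⁻¹) ∈ G) (b : Bool) (n : ℕ) :
    ProjGenLinGroup.mk (h * dm l b ^ n * h⁻¹) ∈ G := by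
  have e : ∀ d : GL (Fin 2) K, h * d ^ n * h⁻¹ = (h * d * h⁻¹) ^ n := by
    intro d; rw [conj_pow]
  rw [e, map_pow]
  apply G.pow_mem
  cases b
  · have : ProjGenLinGroup.mk (h * dm l false * h⁻¹) *
        ProjGenLinGroup.mk (h * dm l true * h⁻¹) = 1 := by
      rw [← map_mul]
      have e : h * dm l false * h⁻¹ * (h * dm l true * h⁻¹) =
          h * (dm l false * dm l true) * h⁻¹ := by group
      rw [e, dm_mul, map_mul, map_mul, ProjGenLinGroup.mk_scalar, mul_one, ← map_mul,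
        mul_inv_cancel, map_one]
    rw [eq_inv_of_mul_eq_one_left this]
    exact G.inv_mem hγ
  · exact hγ

/-- Convergence to the attracting point. -/
lemma conv (hcon : S_CON.{u}) (hl : v (l : K) < 1) (z : PL v) (hz : z ≠ Q v h false)
    (W : Set (PL v)) (hW : IsOpen W) (hP : Q v h true ∈ W) :
    ∃ n : ℕ, (h * dm l true ^ n * h⁻¹) • z ∈ W := by
  obtain ⟨n, hn, _⟩ := hcon v l hl (fun _ => h)
    (fun b => match b with | true => W | false => ({z}ᶜ : Set (PL v)))
    (by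
      intro b
      cases b
      · exact (isOpen_compl_singleton : IsOpen ({z}ᶜ : Set (PL v)))
      · exact hW)
    (by
      intro b
      cases b
      · intro h1
        exact hz (Set.mem_singleton_iff.1 h1).symm
      · exact hP) 1 one_pos
  refine ⟨n, ?_⟩
  exact hn true z (by
    intro h1
    exact h1 rfl)

lemma f1 (P : PL v) (W : Set (PL v)) (hW : IsOpen W) (hWL : (W ∩ Lim v G P).Nonempty) :
    ∃ m : GL (Fin 2) K, ProjGenLinGroup.mk m ∈ G ∧ m • P ∈ W := by
  obtain ⟨x, hxW, hxL⟩ := hWL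
  obtain ⟨y, hyW, m, hm, rfl⟩ := mem_closure_iff.1 hxL W hW hxW
  exact ⟨m, hm, hyW⟩

lemma f2 (hcon : S_CON.{u}) (hl : v (l : K) < 1)
    (hγ : ProjGenLinGroup.mk (h * dm l true * h⁻¹) ∈ G) (N1 : NoFix G)
    (W : Set (PL v)) (hW : IsOpen W) (hWL : (W ∩ Lim v G (Q v h true)).Nonempty) :
    ∃ m : GL (Fin 2) K, ProjGenLinGroup.mk m ∈ G ∧ m • Q v h false ∈ W := by
  obtain ⟨m, hm, hmW⟩ := f1 _ W hW hWL
  obtain ⟨k, hk, hkne⟩ := N1 (Q v h false)
  obtain ⟨n, hn⟩ := conv hcon hl (k • Q v h false) hkne _ (hW.preimage (cont v m)) hmW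
  refine ⟨m * ((h * dm l true ^ n * h⁻¹) * k), ?_, ?_⟩
  · rw [map_mul, map_mul]
    exact G.mul_mem hm (G.mul_mem (mem_pow hγ true n) hk)
  · rw [mul_smul m, mul_smul (h * dm l true ^ n * h⁻¹) k]
    exact hn

lemma third (N1 : NoFix G) (N2 : NoPair G) : ∃ k : GL (Fin 2) K, ProjGenLinGroup.mk k ∈ G ∧
    k • Q v h true ≠ Q v h true ∧ k • Q v h true ≠ Q v h false := by
  obtain ⟨m1, hm1, h1⟩ := N1 (Q v h true)
  by_cases h2 : m1 • Q v h true = Q v h false
  · obtain ⟨k, hk, h3⟩ := N2 (Q v h true) (Q v h false) (Q_ne v h)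
    by_cases h4 : k • Q v h true = Q v h true ∨ k • Q v h true = Q v h false
    · have h5 : ¬ (k • Q v h false = Q v h true ∨ k • Q v h false = Q v h false) :=
        fun h5 => h3 ⟨h4, h5⟩
      push Not at h5
      refine ⟨k * m1, by rw [map_mul]; exact G.mul_mem hk hm1, ?_, ?_⟩
      · rw [mul_smul, h2]; exact h5.1
      · rw [mul_smul, h2]; exact h5.2
    · push Not at h4
      exact ⟨k, hk, h4.1, h4.2⟩
  · exact ⟨m1, hm1, h1, h2⟩

lemma f3 (hcon : S_CON.{u}) (hl : v (l : K) < 1)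
    (hγ : ProjGenLinGroup.mk (h * dm l true * h⁻¹) ∈ G) (N1 : NoFix G) (N2 : NoPair G)
    (W : Set (PL v)) (hW : IsOpen W) (hWL : (W ∩ Lim v G (Q v h true)).Nonempty) :
    ∃ x ∈ W ∩ Lim v G (Q v h true), ∃ y ∈ W ∩ Lim v G (Q v h true), x ≠ y := by
  obtain ⟨m, hm, hmW⟩ := f1 _ W hW hWL
  obtain ⟨k, hk, hk1, hk2⟩ := third (v := v) (h := h) N1 N2
  obtain ⟨n, hn⟩ := conv hcon hl (k • Q v h true) hk2 _ (hW.preimage (cont v m)) hmW
  refine ⟨m • Q v h true, ⟨hmW, orb_mem v G _ hm⟩,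
    (m * ((h * dm l true ^ n * h⁻¹) * k)) • Q v h true, ⟨?_, orb_mem v G _ ?_⟩, ?_⟩
  · rw [mul_smul m, mul_smul (h * dm l true ^ n * h⁻¹) k]
    exact hn
  · rw [map_mul, map_mul]
    exact G.mul_mem hm (G.mul_mem (mem_pow hγ true n) hk)
  · intro heq
    rw [mul_smul] at heq
    have h1 := MulAction.injective m heq
    rw [mul_smul] at h1
    apply hk1
    have h2 : (h * dm l true ^ n * h⁻¹) • Q v h true = Q v h true := by
      show (h * dm l true ^ n * h⁻¹) • h • (pb true : ℙ K (Fin 2 → K)) =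
        h • (pb true : ℙ K (Fin 2 → K))
      rw [← mul_smul, inv_mul_cancel_right, mul_smul]
      congr 1
      have h3 : dm l true • (pb true : ℙ K (Fin 2 → K)) = pb true := by
        rw [pb, Projectivization.smul_mk]
        congr 1
        ext i
        fin_cases i <;> simp [dm, eb, GeneralLinearGroup.mkOfDetNeZero]
      have h4 : dm l true ∈ MulAction.stabilizer (GL (Fin 2) K) (pb true : ℙ K (Fin 2 → K)) := h3
      exact (Subgroup.pow_mem _ h4 n : _)
    have h5 : (h * dm l true ^ n * h⁻¹) • Q v h true =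
        (h * dm l true ^ n * h⁻¹) • k • Q v h true := by rw [← h1, h2]
    exact (MulAction.injective _ h5).symm

lemma exists_pt (q : ℙ K (Fin 2 → K)) (r : ℝ) (hr1 : r ≤ 1) (hq : pd v q (pt 0) < r) :
    ∃ t : K, q = pt t ∧ v t < r := by
  induction q using Projectivization.ind with
  | h x hx =>
    rw [pt, pd_mk, dd_10, div_lt_iff₀ (nn_pos v hx)] at hq
    have hpos := nn_pos v hx
    have hx0 : x 0 ≠ 0 := by
      intro h0
      have : nn v x = v (x 1) := by
        rw [nn, h0, map_zero]; exact max_eq_right (v.nonneg _)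
      rw [this] at hq hpos
      nlinarith
    have hx0' := v.pos hx0
    have hnn : nn v x = v (x 0) := by
      rw [nn]
      apply max_eq_left
      by_contra h'
      have h'' : nn v x = v (x 1) := by rw [nn]; exact max_eq_right (not_le.1 h').le
      rw [h''] at hq hpos
      nlinarith
    refine ⟨x 1 / x 0, ?_, ?_⟩
    · rw [pt]
      apply mk_eq_of_wd
      simp [wd]
      field_simp
      ring
    · rw [map_div₀, div_lt_iff₀ hx0', ← hnn]
      exact hq

theorem pp_lim (hcon : S_CON.{u}) (heq : S_EQ.{u}) (hfx : S_FX3.{u}) (hl : v (l : K) < 1)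
    (hγ : ProjGenLinGroup.mk (h * dm l true * h⁻¹) ∈ G) (N1 : NoFix G) (N2 : NoPair G) :
    PP G (Lim v G (Q v h true)) := by
  classical
  refine ⟨⟨⟨Q v h true, ?_⟩⟩, ?_, ⟨2, ?_⟩, ?_, ?_, ?_, ?_⟩
  · have := orb_mem v G (Q v h true) (m := 1) (by rw [map_one]; exact G.one_mem)
    rwa [one_smul] at this
  · rintro ⟨g, hg⟩
    induction g using ProjGenLinGroup.induction_on with
    | mk m => exact ⟨LC v m, LC_pos v m, fun x y => pd_LC v m x.1 y.1⟩
  · intro x y
    exact dd_le_two v (Projectivization.rep_nonzero (V := Fin 2 → K) x.1)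
      (Projectivization.rep_nonzero (V := Fin 2 → K) y.1)
  · intro V hV hVn
    obtain ⟨W, hW, rfl⟩ := isOpen_induced_iff.1 hV
    obtain ⟨x0, hx0⟩ := hVn
    obtain ⟨x, hx, y, hy, hxy⟩ := f3 hcon hl hγ N1 N2 W hW ⟨x0, hx0, x0.2⟩
    exact ⟨⟨x, hx.2⟩, hx.1, ⟨y, hy.2⟩, hy.1, fun h => hxy (congrArg Subtype.val h)⟩
  · rintro ⟨g, hgG⟩ hg V hV hVn
    obtain ⟨W, hW, rfl⟩ := isOpen_induced_iff.1 hV
    obtain ⟨x0, hx0⟩ := hVn
    by_contra hfix
    push Not at hfix
    obtain ⟨x, hx, y, hy, hxy⟩ := f3 hcon hl hγ N1 N2 W hW ⟨x0, hx0, x0.2⟩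
    obtain ⟨A, B, hA, hB, hxA, hyB, hAB⟩ := t2_separation hxy
    obtain ⟨z, hz, o, ho, hzo⟩ := f3 hcon hl hγ N1 N2 (W ∩ B) (hW.inter hB) ⟨y, ⟨hy.1, hyB⟩, hy.2⟩
    have hxz : x ≠ z := by
      rintro rfl; exact Set.disjoint_left.1 hAB hxA hz.1.2
    have hxo : x ≠ o := by
      rintro rfl; exact Set.disjoint_left.1 hAB hxA ho.1.2
    obtain ⟨m, rfl⟩ := ProjGenLinGroup.mk_surjective g
    have e : ∀ p : PL v, p ∈ W → p ∈ Lim v G (Q v h true) → m • p = p := by
      intro p hp hpL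
      exact congrArg Subtype.val (hfix ⟨p, hpL⟩ hp)
    have h1 := hfx m x z o hxz hxo hzo (e x hx.1 hx.2) (e z hz.1.1 hz.2) (e o ho.1.1 ho.2)
    exact hg (Subtype.ext h1)
  · intro U hU hUn _ ε hε
    have hW : ∀ b, ∃ W : Set (PL v), IsOpen W ∧ Subtype.val ⁻¹' W = U b := fun b =>
      isOpen_induced_iff.1 (hU b)
    choose W hWo hWU using hW
    have hne : ∀ b, (W b ∩ Lim v G (Q v h true)).Nonempty := by
      intro b
      obtain ⟨x, hx⟩ := hUn b
      rw [← hWU b] at hx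
      exact ⟨x, hx, x.2⟩
    have hm : ∀ b, ∃ m : GL (Fin 2) K, ProjGenLinGroup.mk m ∈ G ∧ m • Q v h b ∈ W b := by
      intro b
      cases b
      · exact f2 hcon hl hγ N1 _ (hWo _) (hne _)
      · exact f1 _ _ (hWo _) (hne _)
    choose m hmG hmW using hm
    obtain ⟨n, hn1, hn2⟩ := hcon v l hl (fun b => m b * h) W hWo (by
      intro b
      show (m b * h) • (pb b : ℙ K (Fin 2 → K)) ∈ W b
      rw [mul_smul]
      exact hmW b) ε hε
    have hmem : ∀ b, ProjGenLinGroup.mk ((m b * h) * dm l b ^ n * (m (!b) * h)⁻¹) ∈ G := by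
      intro b
      have e : (m b * h) * dm l b ^ n * (m (!b) * h)⁻¹ =
          m b * (h * dm l b ^ n * h⁻¹) * (m (!b))⁻¹ := by group
      rw [e, map_mul, map_mul, map_inv]
      exact G.mul_mem (G.mul_mem (hmG b) (mem_pow hγ b n)) (G.inv_mem (hmG _))
    refine ⟨fun b => ⟨_, hmem b⟩, ?_, ?_, ?_⟩
    · apply Subtype.ext
      show ProjGenLinGroup.mk ((m false * h) * dm l false ^ n * (m (!false) * h)⁻¹) =
        (ProjGenLinGroup.mk ((m true * h) * dm l true ^ n * (m (!true) * h)⁻¹))⁻¹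
      apply eq_inv_of_mul_eq_one_left
      rw [← map_mul]
      simp only [Bool.not_false, Bool.not_true]
      have e : (m false * h) * dm l false ^ n * (m true * h)⁻¹ *
          ((m true * h) * dm l true ^ n * (m false * h)⁻¹) =
          (m false * h) * (dm l false ^ n * dm l true ^ n) * (m false * h)⁻¹ := by group
      have hc : Commute (dm l false) (dm l true) := by
        ext i j
        fin_cases i <;> fin_cases j <;> simp [dm, GeneralLinearGroup.mkOfDetNeZero]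
      rw [e, ← hc.mul_pow, dm_mul, map_mul, map_mul, map_pow, ProjGenLinGroup.mk_scalar, one_pow,
        mul_one, ← map_mul, mul_inv_cancel, map_one]
    · intro b x hx
      rw [← hWU] at hx ⊢
      exact hn1 b x.1 hx
    · intro b x y hx hy
      rw [← hWU] at hx hy
      exact hn2 b x.1 y.1 hx hy
  · intro V hV hVn
    obtain ⟨W, hW, rfl⟩ := isOpen_induced_iff.1 hV
    obtain ⟨p, hp⟩ := hVn
    obtain ⟨g1, r, hr, hr1, hgp, hball⟩ := chart v W hW p.1 hp
    have hL1 := LC_pos v g1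
    have hL2 := LC_pos v g1⁻¹
    have hopen : ∀ s : ℝ, IsOpen {x : PL v | pd v (g1⁻¹ • x) (pt 0) < s} := by
      intro s
      have h2 : IsOpen ((fun x : PL v => g1⁻¹ • x) ⁻¹'
          Metric.ball (pt 0 : ℙ K (Fin 2 → K)) s) :=
        Metric.isOpen_ball.preimage (cont v g1⁻¹)
      exact h2
    have hp0' : ∀ p' : ℙ K (Fin 2 → K), g1 • pt 0 = p' → pd v (g1⁻¹ • p') (pt 0) = 0 := by
      rintro _ rfl
      rw [inv_smul_smul, pt, pd_mk, dd_10]; simp
    have hp0 : pd v (g1⁻¹ • (p.1 : ℙ K (Fin 2 → K))) (pt 0) = 0 := hp0' _ hgp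
    obtain ⟨w, hwL, hwr, hwp⟩ : ∃ w : PL v, w ∈ Lim v G (Q v h true) ∧
        pd v (g1⁻¹ • w) (pt 0) < r ∧ w ≠ p.1 := by
      obtain ⟨x, hx, y, hy, hxy⟩ := f3 hcon hl hγ N1 N2 _ (hopen r)
        ⟨p.1, by
          show pd v (g1⁻¹ • (p.1 : ℙ K (Fin 2 → K))) (pt 0) < r
          rw [hp0]; exact hr, p.2⟩
      by_cases hxp : x = p.1
      · exact ⟨y, hy.2, hy.1, fun h => hxy (hxp.trans h.symm)⟩
      · exact ⟨x, hx.2, hx.1, hxp⟩
    obtain ⟨t0, ht0e, ht0r⟩ := exists_pt (v := v) _ r hr1 hwr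
    have hwe : g1 • (pt t0 : ℙ K (Fin 2 → K)) = w := by
      rw [← ht0e]; exact smul_inv_smul _ _
    have ht0 : t0 ≠ 0 := by
      rintro rfl
      exact hwp (hwe.symm.trans hgp)
    have hvt0 := v.pos ht0
    have hwW : w ∈ W := by
      rw [← hwe]; apply hball
      rw [← ht0e]; exact hwr
    refine ⟨{x | pd v (g1⁻¹ • (x.1 : ℙ K (Fin 2 → K))) (pt 0) < r / 2}, ?_, ?_, ?_,
      LC v g1 * ((4 * (1 / r ^ 2 + 3 / (r * v t0))) * LC v g1⁻¹), by positivity, ?_⟩
    · intro x hx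
      have h1 := hball (g1⁻¹ • (x.1 : ℙ K (Fin 2 → K))) (lt_of_lt_of_le hx (by linarith))
      exact Eq.subst (motive := fun z : PL v => z ∈ W) (smul_inv_smul g1 (x.1 : PL v)) h1
    · exact isOpen_induced_iff.2 ⟨_, hopen (r / 2), rfl⟩
    · refine ⟨p, ?_⟩
      show pd v (g1⁻¹ • (p.1 : ℙ K (Fin 2 → K))) (pt 0) < r / 2
      rw [hp0]; positivity
    · rintro ⟨g, hgG⟩ hgV x hx y hy
      obtain ⟨m, rfl⟩ := ProjGenLinGroup.mk_surjective g
      have hgm : ∀ z : PL v, z ∈ W → z ∈ Lim v G (Q v h true) → m • z ∉ W := by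
        intro z hz hzL
        exact hgV ⟨z, hzL⟩ hz
      have c1 : ∀ t : K, ∀ w' : PL v, g1 • (pt t : ℙ K (Fin 2 → K)) = w' → w' ∈ W →
          w' ∈ Lim v G (Q v h true) →
          ¬ pd v ((g1⁻¹ * m * g1) • (pt t : ℙ K (Fin 2 → K))) (pt 0) < r := by
        intro t w' hw' hwW' hwL' hlt
        have h2 := hball _ hlt
        rw [← mul_smul] at h2
        have e : g1 * (g1⁻¹ * m * g1) = m * g1 := by group
        rw [e, mul_smul, hw'] at h2
        exact hgm _ hwW' hwL' h2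
      have key := heq v (g1⁻¹ * m * g1) r hr hr1 t0 ht0 ht0r (c1 0 p.1 hgp hp p.2) (by
        intro hlt
        have h2 := hball _ hlt
        rw [← mul_smul] at h2
        have e : g1 * (g1⁻¹ * m * g1)⁻¹ = m⁻¹ * g1 := by group
        rw [e, mul_smul, hgp] at h2
        have h3 : m⁻¹ • (p.1 : PL v) ∈ Lim v G (Q v h true) := by
          have := Lim_inv v G (Q v h true) (ProjGenLinGroup.mk m)⁻¹ (G.inv_mem hgG) p.1 p.2
          rw [← map_inv] at this
          exact this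
        have h4 := hgm _ h2 h3
        apply h4
        exact Eq.subst (motive := fun z : PL v => z ∈ W) (smul_inv_smul m (p.1 : PL v)).symm hp)
        (c1 t0 w hwe hwW hwL)
      have e : ∀ u : ℙ K (Fin 2 → K), m • u = g1 • (g1⁻¹ * m * g1) • g1⁻¹ • u := by
        intro u
        simp only [← mul_smul]
        congr 1; group
      have fin : ∀ a b : ℙ K (Fin 2 → K), pd v (g1⁻¹ • a) (pt 0) < r / 2 →
          pd v (g1⁻¹ • b) (pt 0) < r / 2 → pd v (m • a) (m • b) ≤
          LC v g1 * ((4 * (1 / r ^ 2 + 3 / (r * v t0))) * LC v g1⁻¹) * pd v a b := by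
        intro a b ha hb
        rw [e a, e b]
        calc _ ≤ LC v g1 * pd v ((g1⁻¹ * m * g1) • g1⁻¹ • a)
              ((g1⁻¹ * m * g1) • g1⁻¹ • b) := pd_LC v g1 _ _
          _ ≤ LC v g1 * ((4 * (1 / r ^ 2 + 3 / (r * v t0))) *
              pd v (g1⁻¹ • a) (g1⁻¹ • b)) :=
            mul_le_mul_of_nonneg_left (key _ _ ha hb) hL1.le
          _ ≤ LC v g1 * ((4 * (1 / r ^ 2 + 3 / (r * v t0))) * (LC v g1⁻¹ * pd v a b)) := by
            apply mul_le_mul_of_nonneg_left _ hL1.le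
            apply mul_le_mul_of_nonneg_left (pd_LC v g1⁻¹ a b) (by positivity)
          _ = _ := by ring
      exact fin x.1 y.1 hx hy

theorem t_ne (hcon : S_CON.{u}) (heq : S_EQ.{u}) (hfx : S_FX3.{u}) : S_NE.{u} := by
  intro K _ v G _ _ h l hl hγ N1 N2
  rcases lt_or_gt_of_ne hl with hl' | hl'
  · exact ht_of_pp (pp_lim (v := v) (h := h) (l := l) hcon heq hfx hl' hγ N1 N2)
  · have hinv : dm l⁻¹ true = (dm l true)⁻¹ := by
      apply eq_inv_of_mul_eq_one_left
      ext i j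
      fin_cases i <;> fin_cases j <;> simp [dm, GeneralLinearGroup.mkOfDetNeZero]
    have hγ' : ProjGenLinGroup.mk (h * dm l⁻¹ true * h⁻¹) ∈ G := by
      have e : h * dm l⁻¹ true * h⁻¹ = (h * dm l true * h⁻¹)⁻¹ := by rw [hinv]; group
      rw [e, map_inv]
      exact G.inv_mem hγ
    have hl2 : v ((l⁻¹ : Kˣ) : K) < 1 := by
      rw [Units.val_inv_eq_inv_val, map_inv₀]
      exact inv_lt_one_of_one_lt₀ hl'
    exact ht_of_pp (pp_lim (v := v) (h := h) (l := l⁻¹) hcon heq hfx hl2 hγ' N1 N2)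

end Pool.Agent.Y58.HT
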