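import Pool.Agent.Y58.HT.Stm

universe u

namespace Pool.Agent.Y58.HT

open Matrix H361P
open scoped MatrixGroups

/-- block DESC: a countable subgroup of `PGL(2,K)` is a subgroup of `PGL(2,K₀)`, `K₀` countable -/
def S_DESC : Prop := ∀ {K : Type u} [Field K] (G : Subgroup (PGL(2, K))) [Countable G],
  ∃ (K₀ : Type u) (_ : Field K₀) (_ : Countable K₀) (G₀ : Subgroup (PGL(2, K₀))),
    Nonempty (G₀ ≃* G)

end Pool.Agent.Y58.HT
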