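import Pool.Agent.Y58.HT.Stm2

universe u

namespace Pool.Agent.Y58.HT

open H361P

/-- block NORM: two nontrivial normal subgroups meet -/
def S_NORM : Prop := ∀ (G : Type u) [Group G] [Infinite G], HasFaithfulKTransitive G 4 →
  ∀ N₁ N₂ : Subgroup G, N₁.Normal → N₂.Normal → N₁ ⊓ N₂ = ⊥ → N₁ = ⊥ ∨ N₂ = ⊥

end Pool.Agent.Y58.HT
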